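import Mathlib

/-!
# An everywhere divergent trigonometric series with coefficients in every `l^p`, `p > 2`

For `m ≥ 1` let `P = 2 ^ ⌊log_4 m⌋`, so that `P ^ 2 ≤ m < 4 P ^ 2`, and let `j = ⌊m / P⌋`,
`θ = π j / P`.  The `m`-th term of the series is `cos (m (x - θ)) / P` in the first half of the
window `[j P, (j + 1) P)` and `sin (m (x - θ)) / P` in the second half.  The coefficients are
`O (m ^ (-1/2))`.  Given `x` and `L`, some window of the scale `P = 2 ^ L` has its centre `θ` at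
distance at most `π / (2 P)` from `x` (mod `2 π`), and then the phases vary by at most `π / 8` in the
two middle quarters of the window, so that one of the two middle quarters has a sum which is at
least `1 / 12` in absolute value.
-/

set_option autoImplicit false

namespace Pool.Agent.Results.MP_85199e_an.EverywhereDivergent

open Filter Topology

/-- The scale of `m`. -/
def P (m : ℕ) : ℕ := 2 ^ Nat.log 4 m

/-- The centre attached to `m`. -/
noncomputable def theta (m : ℕ) : ℝ := Real.pi * ((m / P m : ℕ) : ℝ) / (P m : ℝ)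

/-- Cosine coefficients. -/
noncomputable def a (m : ℕ) : ℝ :=
  if m % P m < P m / 2 then Real.cos (m * theta m) / P m else - Real.sin (m * theta m) / P m

/-- Sine coefficients. -/
noncomputable def b (m : ℕ) : ℝ :=
  if m % P m < P m / 2 then Real.sin (m * theta m) / P m else Real.cos (m * theta m) / P m

lemma P_pos (m : ℕ) : 0 < P m := by unfold P; positivity

lemma abs_a_le (m : ℕ) : |a m| ≤ 1 / P m := by
  have hP : (0 : ℝ) < P m := by exact_mod_cast P_pos m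
  unfold a
  split_ifs
  · rw [abs_div, abs_of_pos hP]
    exact div_le_div_of_nonneg_right (Real.abs_cos_le_one _) hP.le
  · rw [abs_div, abs_neg, abs_of_pos hP]
    exact div_le_div_of_nonneg_right (Real.abs_sin_le_one _) hP.le

lemma abs_b_le (m : ℕ) : |b m| ≤ 1 / P m := by
  have hP : (0 : ℝ) < P m := by exact_mod_cast P_pos m
  unfold b
  split_ifs
  · rw [abs_div, abs_of_pos hP]
    exact div_le_div_of_nonneg_right (Real.abs_sin_le_one _) hP.le
  · rw [abs_div, abs_of_pos hP]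
    exact div_le_div_of_nonneg_right (Real.abs_cos_le_one _) hP.le

lemma one_div_P_le (m : ℕ) : (1 : ℝ) / P (m + 1) ≤ 2 * ((m + 1 : ℕ) : ℝ) ^ (-(1 / 2) : ℝ) := by
  have hP : (0 : ℝ) < P (m + 1) := by exact_mod_cast P_pos (m + 1)
  have h1 : m + 1 < 4 ^ (Nat.log 4 (m + 1) + 1) := Nat.lt_pow_succ_log_self (by norm_num) _
  have h2 : ((m + 1 : ℕ) : ℝ) ≤ (2 * (P (m + 1) : ℝ)) ^ 2 := by
    have h3 : m + 1 ≤ (2 * P (m + 1)) ^ 2 := by
      have : (2 * P (m + 1)) ^ 2 = 4 ^ (Nat.log 4 (m + 1) + 1) := by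
        unfold P
        rw [mul_pow, ← pow_mul, mul_comm (Nat.log 4 (m + 1)) 2, pow_mul, pow_succ 4]
        norm_num [mul_comm]
      omega
    exact_mod_cast h3
  have hm : (0 : ℝ) < ((m + 1 : ℕ) : ℝ) := by positivity
  have h4 : Real.sqrt ((m + 1 : ℕ) : ℝ) ≤ 2 * P (m + 1) := by
    rw [Real.sqrt_le_left (by positivity)]
    exact h2
  rw [Real.rpow_neg hm.le, ← Real.sqrt_eq_rpow]
  have hs : 0 < Real.sqrt ((m + 1 : ℕ) : ℝ) := Real.sqrt_pos.mpr hm
  rw [div_le_iff₀ hP, mul_assoc, mul_comm (Real.sqrt _)⁻¹, ← mul_assoc, ← div_eq_mul_inv,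
    le_div_iff₀ hs]
  linarith

lemma coeff_bound {c : ℝ} {m : ℕ} (hc : |c| ≤ 1 / P (m + 1)) {ε : ℝ} (hε : 0 < ε) :
    |c| ^ (2 + ε) ≤ (2 : ℝ) ^ (2 + ε) * ((m + 1 : ℕ) : ℝ) ^ (-(1 + ε / 2)) := by
  have hm : (0 : ℝ) ≤ ((m + 1 : ℕ) : ℝ) := by positivity
  have h1 : |c| ≤ 2 * ((m + 1 : ℕ) : ℝ) ^ (-(1 / 2) : ℝ) := hc.trans (one_div_P_le m)
  calc |c| ^ (2 + ε) ≤ (2 * ((m + 1 : ℕ) : ℝ) ^ (-(1 / 2) : ℝ)) ^ (2 + ε) :=
        Real.rpow_le_rpow (abs_nonneg _) h1 (by linarith)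
    _ = (2 : ℝ) ^ (2 + ε) * ((m + 1 : ℕ) : ℝ) ^ (-(1 + ε / 2)) := by
        rw [Real.mul_rpow (by norm_num) (Real.rpow_nonneg hm _), ← Real.rpow_mul hm]
        congr 2
        ring

lemma summable_bound {ε : ℝ} (hε : 0 < ε) :
    Summable (fun m : ℕ => (2 : ℝ) ^ (2 + ε) * ((m + 1 : ℕ) : ℝ) ^ (-(1 + ε / 2))) := by
  apply Summable.mul_left
  have h : Summable (fun m : ℕ => ((m : ℕ) : ℝ) ^ (-(1 + ε / 2))) :=
    Real.summable_nat_rpow.mpr (by linarith)
  exact (summable_nat_add_iff 1).mpr h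

lemma summable_coeff {ε : ℝ} (hε : 0 < ε) :
    Summable (fun m : ℕ => |a (m + 1)| ^ (2 + ε) + |b (m + 1)| ^ (2 + ε)) := by
  apply Summable.add
  · exact Summable.of_nonneg_of_le (fun m => Real.rpow_nonneg (abs_nonneg _) _)
      (fun m => coeff_bound (abs_a_le (m + 1)) hε) (summable_bound hε)
  · exact Summable.of_nonneg_of_le (fun m => Real.rpow_nonneg (abs_nonneg _) _)
      (fun m => coeff_bound (abs_b_le (m + 1)) hε) (summable_bound hε)

/-- If `|sin φ| ≤ cos φ` then `cos` stays at least `1/3` within distance `2/5` of `φ`. -/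
lemma trig (φ δ : ℝ) (hδ : |δ| ≤ 2 / 5) (h : |Real.sin φ| ≤ Real.cos φ) :
    1 / 3 ≤ Real.cos (φ + δ) := by
  have hc0 : 0 ≤ Real.cos φ := (abs_nonneg _).trans h
  have hsq : Real.sin φ ^ 2 ≤ Real.cos φ ^ 2 := by
    rw [← sq_abs (Real.sin φ)]
    exact pow_le_pow_left₀ (abs_nonneg _) h 2
  have hone := Real.sin_sq_add_cos_sq φ
  have hc : 7 / 10 ≤ Real.cos φ := by
    nlinarith
  have h1 : 1 - δ ^ 2 / 2 ≤ Real.cos δ := Real.one_sub_sq_div_two_le_cos
  have h2 : |Real.sin δ| ≤ |δ| := Real.abs_sin_le_abs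
  have h3 : δ ^ 2 ≤ 4 / 25 := by
    rw [← sq_abs]
    nlinarith [abs_nonneg δ]
  have h4 : 23 / 25 ≤ Real.cos δ := by linarith
  have h5 : |Real.sin φ * Real.sin δ| ≤ Real.cos φ * (2 / 5) := by
    rw [abs_mul]
    exact mul_le_mul h (h2.trans hδ) (abs_nonneg _) hc0
  have h6 : Real.sin φ * Real.sin δ ≤ Real.cos φ * (2 / 5) := (le_abs_self _).trans h5
  rw [Real.cos_add]
  nlinarith

/-- The four quadrants. -/
lemma quadrants (φ : ℝ) :
    (∀ δ : ℝ, |δ| ≤ 2 / 5 → 1 / 3 ≤ Real.cos (φ + δ)) ∨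
    (∀ δ : ℝ, |δ| ≤ 2 / 5 → Real.cos (φ + δ) ≤ - (1 / 3)) ∨
    (∀ δ : ℝ, |δ| ≤ 2 / 5 → 1 / 3 ≤ Real.sin (φ + δ)) ∨
    (∀ δ : ℝ, |δ| ≤ 2 / 5 → Real.sin (φ + δ) ≤ - (1 / 3)) := by
  rcases le_total (|Real.sin φ|) (|Real.cos φ|) with h | h
  · rcases le_total 0 (Real.cos φ) with h0 | h0
    · left
      rw [abs_of_nonneg h0] at h
      exact fun δ hδ => trig φ δ hδ h
    · right; left
      rw [abs_of_nonpos h0] at h
      intro δ hδ
      have := trig (φ + Real.pi) δ hδ (by rw [Real.sin_add_pi, Real.cos_add_pi, abs_neg]; exact h)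
      rw [add_right_comm, Real.cos_add_pi] at this
      linarith
  · rcases le_total 0 (Real.sin φ) with h0 | h0
    · right; right; left
      rw [abs_of_nonneg h0] at h
      intro δ hδ
      have := trig (φ - Real.pi / 2) δ hδ
        (by rw [Real.sin_sub_pi_div_two, Real.cos_sub_pi_div_two, abs_neg]; exact h)
      rw [sub_add_eq_add_sub, Real.cos_sub_pi_div_two] at this
      exact this
    · right; right; right
      rw [abs_of_nonpos h0] at h
      intro δ hδ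
      have := trig (φ + Real.pi / 2) δ hδ
        (by rw [Real.sin_add_pi_div_two, Real.cos_add_pi_div_two]; exact h)
      rw [add_right_comm, Real.cos_add_pi_div_two] at this
      linarith

/-- The centres of one scale come close to every point. -/
lemma exists_center (x : ℝ) (p : ℕ) (hp : 0 < p) :
    ∃ j : ℕ, p ≤ j ∧ j < 3 * p ∧ ∃ t : ℝ, |t| ≤ Real.pi / (2 * p) ∧ ∃ l : ℤ,
      x - Real.pi * j / p = t + l * (2 * Real.pi) := by
  have hpR : (0 : ℝ) < p := by exact_mod_cast hp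
  have hp2 : (0 : ℤ) < 2 * p := by omega
  set k : ℤ := round (x * p / Real.pi) with hk
  set r : ℤ := (k - p) % (2 * p) with hr
  have hr0 : 0 ≤ r := Int.emod_nonneg _ (by omega)
  have hr1 : r < 2 * p := Int.emod_lt_of_pos _ hp2
  obtain ⟨q, hq⟩ : ∃ q : ℤ, k - p = r + 2 * p * q := ⟨(k - p) / (2 * p), by
    rw [hr]; exact (Int.emod_add_mul_ediv _ _).symm⟩
  refine ⟨p + r.toNat, by omega, by omega, x - Real.pi * k / p, ?_, q, ?_⟩
  · have h1 : |x * p / Real.pi - k| ≤ 1 / 2 := abs_sub_round _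
    have h2 : x - Real.pi * k / p = (x * p / Real.pi - k) * (Real.pi / p) := by
      field_simp
    rw [h2, abs_mul, abs_of_pos (div_pos Real.pi_pos hpR)]
    calc |x * p / Real.pi - k| * (Real.pi / p) ≤ 1 / 2 * (Real.pi / p) :=
          mul_le_mul_of_nonneg_right h1 (div_pos Real.pi_pos hpR).le
      _ = Real.pi / (2 * p) := by field_simp
  · have h3 : (((p + r.toNat : ℕ) : ℤ) : ℝ) = (k : ℝ) - 2 * p * q := by
      have : ((p + r.toNat : ℕ) : ℤ) = k - 2 * p * q := by omega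
      rw [this]; push_cast; ring
    have h4 : ((p + r.toNat : ℕ) : ℝ) = (k : ℝ) - 2 * p * q := by
      rw [← h3]; norm_cast
    rw [h4]
    field_simp
    ring

/-- The scale, the window and the place inside the window. -/
lemma decode {L j m : ℕ} (hj : 2 ^ L ≤ j) (hj' : j < 3 * 2 ^ L) (h1 : j * 2 ^ L ≤ m)
    (h2 : m < (j + 1) * 2 ^ L) : P m = 2 ^ L ∧ m / P m = j ∧ m % P m = m - j * 2 ^ L := by
  have hpos : 0 < 2 ^ L := by positivity
  have hlog : Nat.log 4 m = L := by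
    rw [Nat.log_eq_iff (Or.inr ⟨by norm_num, by
      have : 0 < j * 2 ^ L := Nat.mul_pos (by omega) hpos
      omega⟩)]
    have h4 : (4 : ℕ) ^ L = 2 ^ L * 2 ^ L := by
      rw [← mul_pow]; norm_num
    constructor
    · rw [h4]
      exact (Nat.mul_le_mul_right _ hj).trans h1
    · rw [pow_succ, h4]
      nlinarith
  have hP : P m = 2 ^ L := by unfold P; rw [hlog]
  have hdiv : m / 2 ^ L = j := Nat.div_eq_of_lt_le h1 h2
  refine ⟨hP, by rw [hP]; exact hdiv, ?_⟩
  rw [hP]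
  have := Nat.div_add_mod m (2 ^ L)
  rw [hdiv, mul_comm] at this
  omega

/-- The terms of the series. -/
noncomputable def term (x : ℝ) (m : ℕ) : ℝ :=
  a m * Real.cos (m * x) + b m * Real.sin (m * x)

lemma term_eq (x : ℝ) (m : ℕ) :
    term x m = if m % P m < P m / 2 then Real.cos (m * (x - theta m)) / P m
      else Real.sin (m * (x - theta m)) / P m := by
  unfold term a b
  split_ifs
  · rw [mul_sub, Real.cos_sub]; ring
  · rw [mul_sub, Real.sin_sub]; ring

/-- In every scale some block of the series is not small. -/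
lemma big_block (x : ℝ) (L : ℕ) (hL : 2 ≤ L) :
    ∃ N₁ N₂ : ℕ, 4 ^ L ≤ N₁ ∧ N₁ ≤ N₂ ∧ 1 / 12 ≤ |∑ m ∈ Finset.Ico N₁ N₂, term x m| := by
  obtain ⟨q, hq⟩ : ∃ q : ℕ, 2 ^ L = 4 * q := by
    obtain ⟨k, rfl⟩ := Nat.exists_eq_add_of_le hL
    exact ⟨2 ^ k, by rw [pow_add]; norm_num⟩
  have hq0 : 0 < q := by
    have : 0 < 2 ^ L := by positivity
    omega
  have hqR : (0 : ℝ) < q := by exact_mod_cast hq0
  obtain ⟨j, hj1, hj2, t, ht, l, hl⟩ := exists_center x (2 ^ L) (by positivity)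
  have hpR : (((2 ^ L : ℕ)) : ℝ) = 4 * q := by rw [hq]; push_cast; ring
  set φ : ℝ := ((j * 2 ^ L + 2 * q : ℕ) : ℝ) * t with hφ
  -- the terms near the middle of the window
  have hcos : ∀ m : ℕ, Real.cos (m * (x - Real.pi * j / (2 ^ L : ℕ))) = Real.cos (m * t) := by
    intro m
    rw [hl, mul_add, ← mul_assoc]
    have := Real.cos_add_int_mul_two_pi (m * t) (m * l)
    push_cast at this
    exact this
  have hsin : ∀ m : ℕ, Real.sin (m * (x - Real.pi * j / (2 ^ L : ℕ))) = Real.sin (m * t) := by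
    intro m
    rw [hl, mul_add, ← mul_assoc]
    have := Real.sin_add_int_mul_two_pi (m * t) (m * l)
    push_cast at this
    exact this
  have hδ : ∀ m : ℕ, j * 2 ^ L + q ≤ m → m ≤ j * 2 ^ L + 3 * q →
      ∃ δ : ℝ, |δ| ≤ 2 / 5 ∧ (m : ℝ) * t = φ + δ := by
    intro m h1 h2
    refine ⟨((m : ℝ) - ((j * 2 ^ L + 2 * q : ℕ) : ℝ)) * t, ?_, by rw [hφ]; ring⟩
    have h3 : |(m : ℝ) - ((j * 2 ^ L + 2 * q : ℕ) : ℝ)| ≤ q := by
      have h1' : ((j * 2 ^ L + q : ℕ) : ℝ) ≤ m := by exact_mod_cast h1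
      have h2' : (m : ℝ) ≤ ((j * 2 ^ L + 3 * q : ℕ) : ℝ) := by exact_mod_cast h2
      push_cast at h1' h2' ⊢
      rw [abs_le]
      constructor <;> linarith
    rw [abs_mul]
    calc |(m : ℝ) - ((j * 2 ^ L + 2 * q : ℕ) : ℝ)| * |t| ≤ q * (Real.pi / (2 * (2 ^ L : ℕ))) :=
          mul_le_mul h3 ht (abs_nonneg _) hqR.le
      _ = Real.pi / 8 := by rw [hpR]; field_simp; norm_num
      _ ≤ 2 / 5 := by linarith [Real.pi_lt_d2]
  have hterm1 : ∀ m ∈ Finset.Ico (j * 2 ^ L + q) (j * 2 ^ L + 2 * q),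
      term x m = Real.cos (m * t) / (4 * q) := by
    intro m hm
    rw [Finset.mem_Ico] at hm
    obtain ⟨hP, hd, hr⟩ := decode hj1 hj2 (show j * 2 ^ L ≤ m by omega)
      (by rw [add_mul, one_mul]; omega)
    rw [term_eq, hr, if_pos (by rw [hP]; omega)]
    unfold theta
    rw [hd, hP, hcos, hpR]
  have hterm2 : ∀ m ∈ Finset.Ico (j * 2 ^ L + 2 * q) (j * 2 ^ L + 3 * q),
      term x m = Real.sin (m * t) / (4 * q) := by
    intro m hm
    rw [Finset.mem_Ico] at hm
    obtain ⟨hP, hd, hr⟩ := decode hj1 hj2 (show j * 2 ^ L ≤ m by omega)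
      (by rw [add_mul, one_mul]; omega)
    rw [term_eq, hr, if_neg (by rw [hP]; omega)]
    unfold theta
    rw [hd, hP, hsin, hpR]
  have h4L : 4 ^ L ≤ j * 2 ^ L := by
    have h4 : (4 : ℕ) ^ L = 2 ^ L * 2 ^ L := by
      rw [← mul_pow]; norm_num
    rw [h4]
    exact Nat.mul_le_mul_right _ hj1
  have hcard1 : (Finset.Ico (j * 2 ^ L + q) (j * 2 ^ L + 2 * q)).card = q := by
    rw [Nat.card_Ico]; omega
  have hcard2 : (Finset.Ico (j * 2 ^ L + 2 * q) (j * 2 ^ L + 3 * q)).card = q := by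
    rw [Nat.card_Ico]; omega
  have key1 : (q : ℝ) * (1 / 3 / (4 * q)) = 1 / 12 := by field_simp; norm_num
  rcases quadrants φ with h | h | h | h
  · refine ⟨j * 2 ^ L + q, j * 2 ^ L + 2 * q, by omega, by omega, ?_⟩
    refine le_trans ?_ (le_abs_self _)
    have := Finset.card_nsmul_le_sum (Finset.Ico (j * 2 ^ L + q) (j * 2 ^ L + 2 * q))
      (fun m => term x m) (1 / 3 / (4 * q)) (by
        intro m hm
        rw [hterm1 m hm]
        rw [Finset.mem_Ico] at hm
        obtain ⟨δ, hd, he⟩ := hδ m (by omega) (by omega)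
        rw [he]
        exact div_le_div_of_nonneg_right (h δ hd) (by positivity))
    rw [hcard1, nsmul_eq_mul, key1] at this
    exact this
  · refine ⟨j * 2 ^ L + q, j * 2 ^ L + 2 * q, by omega, by omega, ?_⟩
    rw [← abs_neg, ← Finset.sum_neg_distrib]
    refine le_trans ?_ (le_abs_self _)
    have := Finset.card_nsmul_le_sum (Finset.Ico (j * 2 ^ L + q) (j * 2 ^ L + 2 * q))
      (fun m => - term x m) (1 / 3 / (4 * q)) (by
        intro m hm
        rw [hterm1 m hm]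
        rw [Finset.mem_Ico] at hm
        obtain ⟨δ, hd, he⟩ := hδ m (by omega) (by omega)
        rw [he, ← neg_div]
        exact div_le_div_of_nonneg_right (by linarith [h δ hd]) (by positivity))
    rw [hcard1, nsmul_eq_mul, key1] at this
    exact this
  · refine ⟨j * 2 ^ L + 2 * q, j * 2 ^ L + 3 * q, by omega, by omega, ?_⟩
    refine le_trans ?_ (le_abs_self _)
    have := Finset.card_nsmul_le_sum (Finset.Ico (j * 2 ^ L + 2 * q) (j * 2 ^ L + 3 * q))
      (fun m => term x m) (1 / 3 / (4 * q)) (by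
        intro m hm
        rw [hterm2 m hm]
        rw [Finset.mem_Ico] at hm
        obtain ⟨δ, hd, he⟩ := hδ m (by omega) (by omega)
        rw [he]
        exact div_le_div_of_nonneg_right (h δ hd) (by positivity))
    rw [hcard2, nsmul_eq_mul, key1] at this
    exact this
  · refine ⟨j * 2 ^ L + 2 * q, j * 2 ^ L + 3 * q, by omega, by omega, ?_⟩
    rw [← abs_neg, ← Finset.sum_neg_distrib]
    refine le_trans ?_ (le_abs_self _)
    have := Finset.card_nsmul_le_sum (Finset.Ico (j * 2 ^ L + 2 * q) (j * 2 ^ L + 3 * q))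
      (fun m => - term x m) (1 / 3 / (4 * q)) (by
        intro m hm
        rw [hterm2 m hm]
        rw [Finset.mem_Ico] at hm
        obtain ⟨δ, hd, he⟩ := hδ m (by omega) (by omega)
        rw [he, ← neg_div]
        exact div_le_div_of_nonneg_right (by linarith [h δ hd]) (by positivity))
    rw [hcard2, nsmul_eq_mul, key1] at this
    exact this

/-- There is a real trigonometric series whose coefficients lie in `l^p` for every `p > 2` and whose
partial sums have no finite limit at any real point. -/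
theorem result :
    ∃ a b : ℕ → ℝ,
      (∀ ε : ℝ, 0 < ε →
        Summable (fun n : ℕ => |a (n + 1)| ^ (2 + ε) + |b (n + 1)| ^ (2 + ε))) ∧
      ∀ x : ℝ, ¬ ∃ ℓ : ℝ, Tendsto
        (fun N : ℕ => ∑ n ∈ Finset.Icc 1 N,
          (a n * Real.cos (n * x) + b n * Real.sin (n * x))) atTop (𝓝 ℓ) := by
  refine ⟨a, b, fun ε hε => summable_coeff hε, ?_⟩
  rintro x ⟨ℓ, hℓ⟩
  rw [Metric.tendsto_atTop] at hℓ
  obtain ⟨N₀, hN₀⟩ := hℓ (1 / 24) (by norm_num)
  obtain ⟨L, hL2, hL⟩ : ∃ L : ℕ, 2 ≤ L ∧ N₀ + 2 ≤ 4 ^ L :=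
    ⟨N₀ + 2, by omega, (Nat.lt_pow_self (by norm_num)).le⟩
  obtain ⟨N₁, N₂, h1, h2, h3⟩ := big_block x L hL2
  have hI : ∀ N : ℕ, Finset.Icc 1 N = Finset.Ico 1 (N + 1) := by
    intro N; ext m; simp only [Finset.mem_Icc, Finset.mem_Ico]; omega
  have e1 := hN₀ (N₁ - 1) (by omega)
  have e2 := hN₀ (N₂ - 1) (by omega)
  rw [hI, Nat.sub_add_cancel (by omega)] at e1 e2
  have e3 : ∑ n ∈ Finset.Ico 1 N₁, (a n * Real.cos (n * x) + b n * Real.sin (n * x)) +
      ∑ m ∈ Finset.Ico N₁ N₂, term x m =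
      ∑ n ∈ Finset.Ico 1 N₂, (a n * Real.cos (n * x) + b n * Real.sin (n * x)) :=
    Finset.sum_Ico_consecutive _ (by omega) h2
  rw [Real.dist_eq] at e1 e2
  have e4 : |∑ m ∈ Finset.Ico N₁ N₂, term x m| < 1 / 12 := by
    have : ∑ m ∈ Finset.Ico N₁ N₂, term x m =
      (∑ n ∈ Finset.Ico 1 N₂, (a n * Real.cos (n * x) + b n * Real.sin (n * x)) - ℓ) -
      (∑ n ∈ Finset.Ico 1 N₁, (a n * Real.cos (n * x) + b n * Real.sin (n * x)) - ℓ) := by
      linarith
    rw [this, abs_lt]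
    rw [abs_lt] at e1 e2
    constructor <;> linarith [e1.1, e1.2, e2.1, e2.2]
  linarith

end Pool.Agent.Results.MP_85199e_an.EverywhereDivergent
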